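import Pool.Agent.Work.MP_edf6ee_al.CP.Asm
import Pool.Agent.Work.MP_edf6ee_al.CP.I_ACE
import Pool.Agent.Work.MP_edf6ee_al.CP.I_ACP
import Pool.Agent.Work.MP_edf6ee_al.CP.I_ARITH
import Pool.Agent.Work.MP_edf6ee_al.CP.I_BAS
import Pool.Agent.Work.MP_edf6ee_al.CP.I_BR
import Pool.Agent.Work.MP_edf6ee_al.CP.I_CARD
import Pool.Agent.Work.MP_edf6ee_al.CP.I_CL1
import Pool.Agent.Work.MP_edf6ee_al.CP.I_CL2
import Pool.Agent.Work.MP_edf6ee_al.CP.I_CNT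
import Pool.Agent.Work.MP_edf6ee_al.CP.I_DD
import Pool.Agent.Work.MP_edf6ee_al.CP.I_DDAC
import Pool.Agent.Work.MP_edf6ee_al.CP.I_DDSAT
import Pool.Agent.Work.MP_edf6ee_al.CP.I_F0
import Pool.Agent.Work.MP_edf6ee_al.CP.I_FD
import Pool.Agent.Work.MP_edf6ee_al.CP.I_FL
import Pool.Agent.Work.MP_edf6ee_al.CP.I_FRM
import Pool.Agent.Work.MP_edf6ee_al.CP.I_FS
import Pool.Agent.Work.MP_edf6ee_al.CP.I_FT
import Pool.Agent.Work.MP_edf6ee_al.CP.I_FU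
import Pool.Agent.Work.MP_edf6ee_al.CP.I_GEXT
import Pool.Agent.Work.MP_edf6ee_al.CP.I_HM
import Pool.Agent.Work.MP_edf6ee_al.CP.I_HP
import Pool.Agent.Work.MP_edf6ee_al.CP.I_HULL
import Pool.Agent.Work.MP_edf6ee_al.CP.I_HZ
import Pool.Agent.Work.MP_edf6ee_al.CP.I_IRR
import Pool.Agent.Work.MP_edf6ee_al.CP.I_LINK
import Pool.Agent.Work.MP_edf6ee_al.CP.I_MAX
import Pool.Agent.Work.MP_edf6ee_al.CP.I_MR
import Pool.Agent.Work.MP_edf6ee_al.CP.I_NF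
import Pool.Agent.Work.MP_edf6ee_al.CP.I_NU
import Pool.Agent.Work.MP_edf6ee_al.CP.I_PAC
import Pool.Agent.Work.MP_edf6ee_al.CP.I_REAL
import Pool.Agent.Work.MP_edf6ee_al.CP.I_RES1
import Pool.Agent.Work.MP_edf6ee_al.CP.I_RES2
import Pool.Agent.Work.MP_edf6ee_al.CP.I_RET
import Pool.Agent.Work.MP_edf6ee_al.CP.I_RP
import Pool.Agent.Work.MP_edf6ee_al.CP.I_SL
import Pool.Agent.Work.MP_edf6ee_al.CP.I_SOC
import Pool.Agent.Work.MP_edf6ee_al.CP.I_SUB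
import Pool.Agent.Work.MP_edf6ee_al.CP.I_TREE
import Pool.Agent.Work.MP_edf6ee_al.CP.I_W
import Pool.Agent.Work.MP_edf6ee_al.CP.I_WF

/-!
# MP_edf6ee_al: closed points of the Ziegler spectrum of an artin algebra

If every residue field `F` of the commutative artinian base ring `K` satisfies
`#F < #F ^ ℵ₀`, then every closed point of the Ziegler spectrum of an artin `K`-algebra has
finite endolength.
-/

set_option autoImplicit false

namespace Pool.Agent.Results.MP_edf6ee_al.CardinalClosedPoints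

open scoped BigOperators Cardinal
open Pool.Agent.Work.MP_edf6ee_al.CP

theorem t_BAS : S_BAS := pr_BAS
theorem t_FT : S_FT := pr_FT
theorem t_NF : S_NF := pr_NF t_FT
theorem t_FRM : S_FRM := pr_FRM t_NF
theorem t_SUB : S_SUB := pr_SUB t_BAS
theorem t_CL1 : S_CL1 := pr_CL1 t_BAS t_FRM t_SUB
theorem t_ACE : S_ACE := pr_ACE t_CL1
theorem t_ACP : S_ACP := pr_ACP
theorem t_ARITH : S_ARITH := pr_ARITH
theorem t_MAX : S_MAX := pr_MAX t_CL1
theorem t_MR : S_MR := pr_MR t_MAX t_CL1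
theorem t_CL2 : S_CL2 := pr_CL2 t_NF t_SUB t_CL1
theorem t_SOC : S_SOC := pr_SOC t_MR t_CL1 t_CL2
theorem t_W : S_W := pr_W t_MAX t_SOC t_CL1
theorem t_WF : S_WF := pr_WF t_W t_CL1
theorem t_NU : S_NU := pr_NU t_WF t_MR t_CL1 t_CL2
theorem t_BR : S_BR := pr_BR t_NU t_MR t_CL1 t_CL2
theorem t_CARD : S_CARD := pr_CARD
theorem t_CNT : S_CNT := pr_CNT t_MR t_CL1 t_CL2
theorem t_DDSAT : S_DDSAT := pr_DDSAT
theorem t_DD : S_DD := pr_DD t_DDSAT t_BAS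
theorem t_DDAC : S_DDAC := pr_DDAC
theorem t_SL : S_SL := pr_SL t_CL1 t_CL2
theorem t_FD : S_FD := pr_FD t_CL1
theorem t_FU : S_FU := pr_FU t_CL1
theorem t_F0 : S_F0 := pr_F0 t_MAX t_SL t_FD t_FU t_CL1
theorem t_FS : S_FS := pr_FS t_FT
theorem t_GEXT : S_GEXT := pr_GEXT t_FS
theorem t_FL : S_FL := pr_FL t_GEXT t_CL1 t_NF t_SUB
theorem t_HZ : S_HZ := pr_HZ t_ACE t_CL1
theorem t_HULL : S_HULL := pr_HULL t_ACE t_HZ t_CL1
theorem t_RET : S_RET := pr_RET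
theorem t_HM : S_HM := pr_HM t_HULL t_GEXT t_RET t_CL1 t_NF t_BAS
theorem t_HP : S_HP := pr_HP t_HULL t_CL1
theorem t_IRR : S_IRR := pr_IRR t_GEXT t_CL1 t_NF t_BAS t_SUB t_FRM
theorem t_LINK : S_LINK := pr_LINK t_GEXT t_CL1 t_NF t_SUB
theorem t_PAC : S_PAC := pr_PAC
theorem t_RP : S_RP := pr_RP t_BAS
theorem t_REAL : S_REAL := pr_REAL t_RP t_DDAC t_DD t_HM t_PAC t_BAS t_FRM t_SUB t_CL1
theorem t_RES1 : S_RES1 := pr_RES1
theorem t_RES2 : S_RES2 := pr_RES2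
theorem t_TREE : S_TREE := pr_TREE t_BR t_MAX t_CL1

/-- Let `K` be a commutative artinian ring all of whose residue fields `F` satisfy
`#F < #F ^ ℵ₀`, let `R` be an artin `K`-algebra and let `N` be a closed point of the Ziegler
spectrum of `R`: an indecomposable pure-injective module which is separated from every other such
module by a pp-pair. Then `N` has finite length over its endomorphism ring. -/
theorem result :
  ∀ (K : Type) [CommRing K] [IsArtinianRing K],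
    (∀ m : Ideal K, m.IsMaximal → #(K ⧸ m) < #(K ⧸ m) ^ ℵ₀) →
    ∀ (R : Type) [Ring R] [Algebra K R] [Module.Finite K R]
    (N : Type) [AddCommGroup N] [Module R N],
    (Nontrivial N ∧ ∀ p q : Submodule R N, IsCompl p q → p = ⊥ ∨ q = ⊥) →
    (∀ (B : Type) [AddCommGroup B] [Module R B] (f : N →ₗ[R] B), Function.Injective f →
      (∀ (m n : ℕ) (H : Matrix (Fin m) (Fin n) R) (a : Fin m → N),
        (∃ y : Fin n → B, ∀ i, ∑ j, H i j • y j = f (a i)) →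
        ∃ x : Fin n → N, ∀ i, ∑ j, H i j • x j = a i) →
      ∃ g : B →ₗ[R] N, g.comp f = LinearMap.id) →
    (∀ (M : Type) [AddCommGroup M] [Module R M],
      (Nontrivial M ∧ ∀ p q : Submodule R M, IsCompl p q → p = ⊥ ∨ q = ⊥) →
      (∀ (B : Type) [AddCommGroup B] [Module R B] (f : M →ₗ[R] B), Function.Injective f →
        (∀ (m n : ℕ) (H : Matrix (Fin m) (Fin n) R) (a : Fin m → M),
          (∃ y : Fin n → B, ∀ i, ∑ j, H i j • y j = f (a i)) →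
          ∃ x : Fin n → M, ∀ i, ∑ j, H i j • x j = a i) →
        ∃ g : B →ₗ[R] M, g.comp f = LinearMap.id) →
      IsEmpty (M ≃ₗ[R] N) →
      ∃ (m₁ k₁ : ℕ) (c₁ : Fin m₁ → R) (D₁ : Matrix (Fin m₁) (Fin k₁) R)
        (m₂ k₂ : ℕ) (c₂ : Fin m₂ → R) (D₂ : Matrix (Fin m₂) (Fin k₂) R),
        (∃ x : M, (∃ y : Fin k₁ → M, ∀ i, c₁ i • x + ∑ j, D₁ i j • y j = 0) ∧
           ¬ ∃ y : Fin k₂ → M, ∀ i, c₂ i • x + ∑ j, D₂ i j • y j = 0) ∧
        ∀ x : N, (∃ y : Fin k₁ → N, ∀ i, c₁ i • x + ∑ j, D₁ i j • y j = 0) →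
           ∃ y : Fin k₂ → N, ∀ i, c₂ i • x + ∑ j, D₂ i j • y j = 0) →
    IsFiniteLength (Module.End R N) N :=
  final_of t_ACP t_HP t_IRR t_LINK t_REAL t_F0 t_FL t_TREE t_CNT t_CARD t_RES1 t_RES2 t_ARITH

end Pool.Agent.Results.MP_edf6ee_al.CardinalClosedPoints
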