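import Pool.Agent.Work.MP_edf6ee_al.SD.All

/-!
# MP_edf6ee_al: closed points of infinite endolength are large over their endomorphism rings

Let `R` be any ring and `N` a closed point of the Ziegler spectrum of `R` which does not have
finite endolength. Then no nonzero quotient `φ(N)/ψ(N)` of pp-definable subgroups is countably
generated over the endomorphism ring `E` of `N`, and each of them contains an independent family of
`2 ^ ℵ₀` nonzero `E`-submodules. If `R` is an artin algebra (or a noetherian algebra), then no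
module with fewer than `2 ^ ℵ₀` generators has `N` as a direct summand of its pure-injective
envelope.
-/

set_option autoImplicit false

namespace Pool.Agent.Results.MP_edf6ee_al.SmallClosedPoints

open scoped BigOperators Cardinal
open Pool.Agent.Work.MP_edf6ee_al

/-- `M` is indecomposable (as in the frozen statement S03485). -/
def IsIndecomposable (R : Type) [Ring R] (M : Type) [AddCommGroup M] [Module R M] : Prop :=
  Nontrivial M ∧ ∀ p q : Submodule R M, IsCompl p q → p = ⊥ ∨ q = ⊥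

/-- `f : M → B` is pure: finite systems of linear equations with right hand sides in `M` which are
solvable in `B` are solvable in `M` (this contains the injectivity of `f`). -/
def IsPure (R : Type) [Ring R] (M B : Type) [AddCommGroup M] [Module R M] [AddCommGroup B]
    [Module R B] (f : M →ₗ[R] B) : Prop :=
  ∀ (m n : ℕ) (H : Matrix (Fin m) (Fin n) R) (a : Fin m → M),
    (∃ y : Fin n → B, ∀ i, ∑ j, H i j • y j = f (a i)) →
    ∃ x : Fin n → M, ∀ i, ∑ j, H i j • x j = a i

/-- `M` is pure-injective: every pure embedding of `M` splits (as in the frozen statement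
S03485). -/
def IsPureInjective (R : Type) [Ring R] (M : Type) [AddCommGroup M] [Module R M] : Prop :=
  ∀ (B : Type) [AddCommGroup B] [Module R B] (f : M →ₗ[R] B), Function.Injective f →
    IsPure R M B f → ∃ g : B →ₗ[R] M, g.comp f = LinearMap.id

/-- `N` is a closed point of the Ziegler spectrum of `R`: `N` is indecomposable and pure-injective,
and for every other indecomposable pure-injective module `M` there is a pp-pair which is open on `M`
and closed on `N` (the three hypotheses of the frozen statement S03485). -/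
def IsClosedPoint (R : Type) [Ring R] (N : Type) [AddCommGroup N] [Module R N] : Prop :=
  IsIndecomposable R N ∧ IsPureInjective R N ∧
  (∀ (M : Type) [AddCommGroup M] [Module R M], IsIndecomposable R M → IsPureInjective R M →
    IsEmpty (M ≃ₗ[R] N) →
    ∃ (m₁ k₁ : ℕ) (c₁ : Fin m₁ → R) (D₁ : Matrix (Fin m₁) (Fin k₁) R)
      (m₂ k₂ : ℕ) (c₂ : Fin m₂ → R) (D₂ : Matrix (Fin m₂) (Fin k₂) R),
      (∃ x : M, (∃ y : Fin k₁ → M, ∀ i, c₁ i • x + ∑ j, D₁ i j • y j = 0) ∧
         ¬ ∃ y : Fin k₂ → M, ∀ i, c₂ i • x + ∑ j, D₂ i j • y j = 0) ∧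
      ∀ x : N, (∃ y : Fin k₁ → N, ∀ i, c₁ i • x + ∑ j, D₁ i j • y j = 0) →
         ∃ y : Fin k₂ → N, ∀ i, c₂ i • x + ∑ j, D₂ i j • y j = 0)

/-- `x` satisfies in `N` the pp formula `∃ y, ∀ i, c i • x + ∑ j, D i j • y j = 0`. -/
def Sol {R : Type} [Ring R] {N : Type} [AddCommGroup N] [Module R N] {m k : ℕ}
    (c : Fin m → R) (D : Matrix (Fin m) (Fin k) R) (x : N) : Prop :=
  ∃ y : Fin k → N, ∀ i, c i • x + ∑ j, D i j • y j = 0

/-- `j : M → H` is a pure-injective envelope of `M`: `j` is pure, `H` is pure-injective, and every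
endomorphism `g` of `H` with `g j = j` is bijective. -/
def IsEnvelope (R : Type) [Ring R] (M H : Type) [AddCommGroup M] [Module R M] [AddCommGroup H]
    [Module R H] (j : M →ₗ[R] H) : Prop :=
  IsPure R M H j ∧ IsPureInjective R H ∧
    ∀ g : H →ₗ[R] H, g.comp j = j → Function.Bijective g

theorem sol_iff {R : Type} [Ring R] {N : Type} [AddCommGroup N] [Module R N] {m k : ℕ}
    (c : Fin m → R) (D : Matrix (Fin m) (Fin k) R) (x : N) :
    Sol c D x ↔ (⟨m, k, fun i _ => c i, fun i j => D i j⟩ : CP.PP R 1).Sat N (fun _ => x) := by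
  simp [Sol, CP.PP.Sat]

theorem pure_sat {R : Type} [Ring R] {M H : Type} [AddCommGroup M] [Module R M] [AddCommGroup H]
    [Module R H] {j : M →ₗ[R] H} (hj : IsPure R M H j) (k : ℕ) (φ : CP.PP R k) (m : Fin k → M)
    (h : φ.Sat H (fun l => j (m l))) : φ.Sat M m := by
  obtain ⟨y, hy⟩ := h
  obtain ⟨x, hx⟩ := hj φ.m φ.k φ.D (fun i => - ∑ l, φ.C i l • m l) ⟨y, fun i => by
    have h1 := hy i
    rw [map_neg, map_sum]
    simp only [map_smul]
    exact eq_neg_of_add_eq_zero_right h1⟩
  exact ⟨x, fun i => by rw [hx i]; exact add_neg_cancel _⟩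

/-- Let `R` be a ring and `N` a closed point of the Ziegler spectrum of `R` which does not have
finite length over its endomorphism ring `E`. Then, for every pp-pair `φ/ψ` which is open on `N`,
`φ(N)/ψ(N)` is not countably generated over `E` and contains an independent family of `2 ^ ℵ₀`
nonzero cyclic `E`-submodules. If `R` is finitely generated as a module over a commutative
noetherian ring `K` (for example if `R` is an artin algebra) and `N` is isomorphic to a direct
summand of the pure-injective envelope of a module `M`, then every generating set of `M` has at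
least `2 ^ ℵ₀` elements. -/
theorem result :
    ∀ (R : Type) [Ring R] (N : Type) [AddCommGroup N] [Module R N],
      IsClosedPoint R N → ¬ IsFiniteLength (Module.End R N) N →
      (∀ (m₁ k₁ : ℕ) (c₁ : Fin m₁ → R) (D₁ : Matrix (Fin m₁) (Fin k₁) R)
        (m₂ k₂ : ℕ) (c₂ : Fin m₂ → R) (D₂ : Matrix (Fin m₂) (Fin k₂) R),
        (∃ x : N, Sol c₁ D₁ x ∧ ¬ Sol c₂ D₂ x) →
        (∀ x : ℕ → N, (∀ n, Sol c₁ D₁ (x n)) → ∃ a : N, Sol c₁ D₁ a ∧
          ∀ (n : ℕ) (g : ℕ → Module.End R N), ¬ Sol c₂ D₂ (a - ∑ i ∈ Finset.range n, g i (x i))) ∧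
        (∃ y : (ℕ → Bool) → N, (∀ f, Sol c₁ D₁ (y f) ∧ ¬ Sol c₂ D₂ (y f)) ∧
          ∀ (F : Finset (ℕ → Bool)) (g : (ℕ → Bool) → Module.End R N),
            Sol c₂ D₂ (∑ f ∈ F, g f (y f)) → ∀ f ∈ F, Sol c₂ D₂ (g f (y f)))) ∧
      (∀ (K : Type) [CommRing K] [IsNoetherianRing K] [Algebra K R] [Module.Finite K R]
        (M H : Type) [AddCommGroup M] [Module R M] [AddCommGroup H] [Module R H]
        (j : M →ₗ[R] H), IsEnvelope R M H j →
        (∃ (i : N →ₗ[R] H) (π : H →ₗ[R] N), ∀ x, π (i x) = x) →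
        ∀ X : Set M, Submodule.span R X = ⊤ → 2 ^ ℵ₀ ≤ #X) := by
  intro R _ N _ _ hN hinf
  have hC : CP.ClosedPt R N := CP.closedPt_of R N hN.2.2
  have hG : CP.Good R N := SD.good R N hN.1 hN.2.1 hC
  have hNM : CP.NoMin R N := SD.noMin R N hG hinf
  obtain ⟨hbot, htop, hinf', hsup, hend⟩ := AU.t_CL1 R N
  refine ⟨?_, ?_⟩
  · intro m₁ k₁ c₁ D₁ m₂ k₂ c₂ D₂ hopen
    obtain ⟨A, hA, hAm⟩ := (AU.t_SUB R N).1 ⟨m₁, k₁, fun i _ => c₁ i, fun i j => D₁ i j⟩
    obtain ⟨B, hB, hBm⟩ := (AU.t_SUB R N).1 ⟨m₂, k₂, fun i _ => c₂ i, fun i j => D₂ i j⟩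
    have hA' : ∀ x, Sol c₁ D₁ x ↔ x ∈ A := fun x => by rw [sol_iff, hAm]
    have hB' : ∀ x, Sol c₂ D₂ x ↔ x ∈ B := fun x => by rw [sol_iff, hBm]
    simp only [hA', hB'] at hopen ⊢
    have hAB : A ⊓ B ∈ CP.D1 R N := hinf' A hA B hB
    have hlt : A ⊓ B < A := by
      obtain ⟨x, hx, hx'⟩ := hopen
      refine lt_of_le_of_ne inf_le_left ?_
      intro h
      rw [← h] at hx
      exact hx' hx.2
    refine ⟨?_, ?_⟩
    · intro x hx
      obtain ⟨a, ha, h⟩ := SD.u_NCG R N hG hNM (A ⊓ B) hAB A hA hlt x hx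
      refine ⟨a, ha, fun n g hmem => h n g ⟨?_, hmem⟩⟩
      exact A.sub_mem ha (A.sum_mem fun i _ => hend A hA (g i) _ (hx i))
    · obtain ⟨y, hy, h⟩ := SD.u_IND R N hG hNM (A ⊓ B) hAB A hA hlt
      refine ⟨y, fun f => ⟨(hy f).1, fun h' => (hy f).2 ⟨(hy f).1, h'⟩⟩, ?_⟩
      intro F g hmem f hf
      exact (h F g ⟨A.sum_mem fun f _ => hend A hA (g f) _ (hy f).1, hmem⟩ f hf).2
  · intro K _ _ _ _ M H _ _ _ _ j hj hs X hX
    obtain ⟨i, π, hπ⟩ := hs
    have h1 := SD.big_env K R N hG hNM M H hj.2.1 j (pure_sat hj.1)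
      (fun g hg => (hj.2.2 g (LinearMap.ext hg)).1) i π hπ X hX
    rwa [← Cardinal.two_power_aleph0] at h1

end Pool.Agent.Results.MP_edf6ee_al.SmallClosedPoints
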