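import Pool.Agent.Work.MP_edf6ee_al.SD.All

/-!
# MP_edf6ee_al: closed points of infinite endolength and superdecomposable modules

Let `R` be any ring and `N` a closed point of the Ziegler spectrum of `R` which does not have
finite endolength. Then the direct power `N ^ N` has a nonzero direct summand which has no
indecomposable direct summand (a superdecomposable pure-injective module).
-/

set_option autoImplicit false

namespace Pool.Agent.Results.MP_edf6ee_al.Superdecomposable

open scoped BigOperators
open Pool.Agent.Work.MP_edf6ee_al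

/-- `M` is indecomposable (as in the frozen statement S03485). -/
def IsIndecomposable (R : Type) [Ring R] (M : Type) [AddCommGroup M] [Module R M] : Prop :=
  Nontrivial M ∧ ∀ p q : Submodule R M, IsCompl p q → p = ⊥ ∨ q = ⊥

/-- `M` is pure-injective: every pure embedding of `M` splits (as in the frozen statement
S03485). -/
def IsPureInjective (R : Type) [Ring R] (M : Type) [AddCommGroup M] [Module R M] : Prop :=
  ∀ (B : Type) [AddCommGroup B] [Module R B] (f : M →ₗ[R] B), Function.Injective f →
    (∀ (m n : ℕ) (H : Matrix (Fin m) (Fin n) R) (a : Fin m → M),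
      (∃ y : Fin n → B, ∀ i, ∑ j, H i j • y j = f (a i)) →
      ∃ x : Fin n → M, ∀ i, ∑ j, H i j • x j = a i) →
    ∃ g : B →ₗ[R] M, g.comp f = LinearMap.id

/-- `N` is a closed point of the Ziegler spectrum of `R`: `N` is indecomposable and pure-injective,
and for every other indecomposable pure-injective module `M` there is a pp-pair which is open on `M`
and closed on `N` (the three hypotheses of the frozen statement S03485). -/
def IsClosedPoint (R : Type) [Ring R] (N : Type) [AddCommGroup N] [Module R N] : Prop :=
  IsIndecomposable R N ∧ IsPureInjective R N ∧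
  (∀ (M : Type) [AddCommGroup M] [Module R M], IsIndecomposable R M → IsPureInjective R M →
    IsEmpty (M ≃ₗ[R] N) →
    ∃ (m₁ k₁ : ℕ) (c₁ : Fin m₁ → R) (D₁ : Matrix (Fin m₁) (Fin k₁) R)
      (m₂ k₂ : ℕ) (c₂ : Fin m₂ → R) (D₂ : Matrix (Fin m₂) (Fin k₂) R),
      (∃ x : M, (∃ y : Fin k₁ → M, ∀ i, c₁ i • x + ∑ j, D₁ i j • y j = 0) ∧
         ¬ ∃ y : Fin k₂ → M, ∀ i, c₂ i • x + ∑ j, D₂ i j • y j = 0) ∧
      ∀ x : N, (∃ y : Fin k₁ → N, ∀ i, c₁ i • x + ∑ j, D₁ i j • y j = 0) →
         ∃ y : Fin k₂ → N, ∀ i, c₂ i • x + ∑ j, D₂ i j • y j = 0)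

/-- Let `R` be a ring and `N` a closed point of the Ziegler spectrum of `R` which does not have
finite length over its endomorphism ring. Then there is a nonzero pure-injective direct summand `H`
of the direct power `N → N` such that no direct summand of `H` is indecomposable. -/
theorem result :
    ∀ (R : Type) [Ring R] (N : Type) [AddCommGroup N] [Module R N],
      IsClosedPoint R N → ¬ IsFiniteLength (Module.End R N) N →
      ∃ (H : Type) (_ : AddCommGroup H) (_ : Module R H),
        Nontrivial H ∧ IsPureInjective R H ∧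
        (∃ (i : H →ₗ[R] (N → N)) (π : (N → N) →ₗ[R] H), ∀ x, π (i x) = x) ∧
        ∀ p q : Submodule R H, IsCompl p q → ¬ IsIndecomposable R p := by
  intro R _ N _ _ hN hinf
  have hC : CP.ClosedPt R N := CP.closedPt_of R N hN.2.2
  have hG : CP.Good R N := SD.good R N hN.1 hN.2.1 hC
  have hNM : CP.NoMin R N := SD.noMin R N hG hinf
  obtain ⟨H, i1, i2, i, π, hiπ, hnt, hP, hdec⟩ := SD.u_SUP R N hG hC hNM
  refine ⟨H, i1, i2, hnt, hP, ⟨i, π, hiπ⟩, ?_⟩
  intro p q hpq
  exact hdec p p.subtype (Submodule.projectionOnto p q hpq)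
    (fun x => Submodule.projectionOnto_apply_left hpq x)

end Pool.Agent.Results.MP_edf6ee_al.Superdecomposable
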