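import Pool.Agent.Work.MP_edf6ee_al.AU.All

/-!
# MP_edf6ee_al: closed points of infinite endolength over algebraically closed fields

Let `K` be an algebraically closed field, `R` a finite dimensional `K`-algebra and `N` a closed
point of the Ziegler spectrum of `R` which does not have finite endolength. Then `N` has `2 ^ #K`
pairwise non-isomorphic twists by ring automorphisms of `R`, all of which are closed points of
infinite endolength. So the closed points of infinite endolength are none or `2 ^ #K` many.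
-/

set_option autoImplicit false

namespace Pool.Agent.Results.MP_edf6ee_al.TwistDichotomy

open scoped BigOperators Cardinal
open Pool.Agent.Work.MP_edf6ee_al

/-- `N` is a closed point of the Ziegler spectrum of `R`: `N` is indecomposable and pure-injective,
and for every other indecomposable pure-injective module `M` there is a pp-pair which is open on `M`
and closed on `N` (the three hypotheses of the frozen statement S03485). -/
def IsClosedPoint (R : Type) [Ring R] (N : Type) [AddCommGroup N] [Module R N] : Prop :=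
  (Nontrivial N ∧ ∀ p q : Submodule R N, IsCompl p q → p = ⊥ ∨ q = ⊥) ∧
  (∀ (B : Type) [AddCommGroup B] [Module R B] (f : N →ₗ[R] B), Function.Injective f →
    (∀ (m n : ℕ) (H : Matrix (Fin m) (Fin n) R) (a : Fin m → N),
      (∃ y : Fin n → B, ∀ i, ∑ j, H i j • y j = f (a i)) →
      ∃ x : Fin n → N, ∀ i, ∑ j, H i j • x j = a i) →
    ∃ g : B →ₗ[R] N, g.comp f = LinearMap.id) ∧
  (∀ (M : Type) [AddCommGroup M] [Module R M],
    (Nontrivial M ∧ ∀ p q : Submodule R M, IsCompl p q → p = ⊥ ∨ q = ⊥) →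
    (∀ (B : Type) [AddCommGroup B] [Module R B] (f : M →ₗ[R] B), Function.Injective f →
      (∀ (m n : ℕ) (H : Matrix (Fin m) (Fin n) R) (a : Fin m → M),
        (∃ y : Fin n → B, ∀ i, ∑ j, H i j • y j = f (a i)) →
        ∃ x : Fin n → M, ∀ i, ∑ j, H i j • x j = a i) →
      ∃ g : B →ₗ[R] M, g.comp f = LinearMap.id) →
    IsEmpty (M ≃ₗ[R] N) →
    ∃ (m₁ k₁ : ℕ) (c₁ : Fin m₁ → R) (D₁ : Matrix (Fin m₁) (Fin k₁) R)
      (m₂ k₂ : ℕ) (c₂ : Fin m₂ → R) (D₂ : Matrix (Fin m₂) (Fin k₂) R),
      (∃ x : M, (∃ y : Fin k₁ → M, ∀ i, c₁ i • x + ∑ j, D₁ i j • y j = 0) ∧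
         ¬ ∃ y : Fin k₂ → M, ∀ i, c₂ i • x + ∑ j, D₂ i j • y j = 0) ∧
      ∀ x : N, (∃ y : Fin k₁ → N, ∀ i, c₁ i • x + ∑ j, D₁ i j • y j = 0) →
         ∃ y : Fin k₂ → N, ∀ i, c₂ i • x + ∑ j, D₂ i j • y j = 0)

theorem to_raw {R : Type} [Ring R] {N : Type} [AddCommGroup N] [Module R N]
    (h : AU.IsClosedPoint R N) : IsClosedPoint R N := by
  refine ⟨h.1, h.2.1, ?_⟩
  intro M _ _ hI hP hE
  obtain ⟨φ, ψ, ⟨x, hx1, hx2⟩, hN⟩ := h.2.2 M hI hP hE
  refine ⟨φ.m, φ.k, fun i => φ.C i 0, fun i j => φ.D i j, ψ.m, ψ.k, fun i => ψ.C i 0,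
    fun i j => ψ.D i j, ⟨x, ?_, ?_⟩, ?_⟩
  · simpa [CP.PP.Sat] using hx1
  · simpa [CP.PP.Sat] using hx2
  · intro y hy
    have := hN y (by simpa [CP.PP.Sat] using hy)
    simpa [CP.PP.Sat] using this

theorem of_raw {R : Type} [Ring R] {N : Type} [AddCommGroup N] [Module R N]
    (h : IsClosedPoint R N) : AU.IsClosedPoint R N :=
  ⟨h.1, h.2.1, CP.closedPt_of R N h.2.2⟩

/-- Let `K` be an algebraically closed field, `R` a finite dimensional `K`-algebra and `N` a closed
point of the Ziegler spectrum of `R` of infinite endolength. Then there are modules `M A`, one for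
each subset `A` of `K`, which are twists of `N` by ring automorphisms of `R`, are closed points of
infinite endolength, and are pairwise non-isomorphic. -/
theorem result :
    ∀ (K : Type) [Field K] [IsAlgClosed K] (R : Type) [Ring R] [Algebra K R] [Module.Finite K R]
      (N : Type) [AddCommGroup N] [Module R N],
      IsClosedPoint R N → ¬ IsFiniteLength (Module.End R N) N →
      ∃ (M : Set K → Type) (_ : ∀ A, AddCommGroup (M A)) (_ : ∀ A, Module R (M A)),
        (∀ A, IsClosedPoint R (M A) ∧ ¬ IsFiniteLength (Module.End R (M A)) (M A) ∧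
          ∃ (θ : R ≃+* R) (s : N ≃+ M A), ∀ (r : R) (x : N), s (r • x) = θ r • s x) ∧
        ∀ A B, Nonempty (M A ≃ₗ[R] M B) → A = B := by
  intro K _ _ R _ _ _ N _ _ hN hinf
  obtain ⟨M, i1, i2, h1, h2⟩ := AU.final K R N (of_raw hN) hinf
  exact ⟨M, i1, i2, fun A => ⟨to_raw (h1 A).1, (h1 A).2.1, (h1 A).2.2⟩, h2⟩

end Pool.Agent.Results.MP_edf6ee_al.TwistDichotomy
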